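import Pool.Agent.H354.NORE.Stmts

/-! Task NORE-T1: from `k`-linear categories without zero divisors to idempotent matrices. -/

set_option autoImplicit false

namespace Pool.Agent.H975.NORE

open Matrix H354P CategoryTheory

/-- a family of idempotent matrices -/
structure Dat (R : Type) [Ring R] where
  ι : Type
  sz : ι → ℕ
  E : ∀ i, Matrix (Fin (sz i)) (Fin (sz i)) R
  hE : ∀ i, E i * E i = E i

/-- objects of the category of idempotents -/
structure Ob (k : Type) {R : Type} [Ring R] (D : Dat R) : Type where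
  i : D.ι

/-- morphisms -/
def HomS (k : Type) [Field k] {R : Type} [Ring R] [Algebra k R] (D : Dat R) (i j : D.ι) :
    Submodule k (Matrix (Fin (D.sz j)) (Fin (D.sz i)) R) where
  carrier := {M | D.E j * M = M ∧ M * D.E i = M}
  add_mem' := by
    rintro a b ⟨h1, h2⟩ ⟨h3, h4⟩
    exact ⟨by rw [Matrix.mul_add, h1, h3], by rw [Matrix.add_mul, h2, h4]⟩
  zero_mem' := ⟨Matrix.mul_zero _, Matrix.zero_mul _⟩
  smul_mem' := by
    rintro c a ⟨h1, h2⟩
    exact ⟨by rw [Matrix.mul_smul, h1], by rw [Matrix.smul_mul, h2]⟩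

section

variable {k : Type} [Field k] {R : Type} [Ring R] [Algebra k R] (D : Dat R)

instance cat : SmallCategory (Ob k D) where
  Hom X Y := HomS k D X.i Y.i
  id X := ⟨D.E X.i, D.hE _, D.hE _⟩
  comp f g := ⟨g.1 * f.1, by rw [← Matrix.mul_assoc, g.2.1], by rw [Matrix.mul_assoc, f.2.2]⟩
  id_comp f := Subtype.ext f.2.2
  comp_id f := Subtype.ext f.2.1
  assoc f g h := Subtype.ext (Matrix.mul_assoc _ _ _).symm

instance pre : Preadditive (Ob k D) where
  homGroup X Y := inferInstanceAs (AddCommGroup (HomS k D X.i Y.i))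
  add_comp _ _ _ f f' g := Subtype.ext (Matrix.mul_add g.1 f.1 f'.1)
  comp_add _ _ _ f g g' := Subtype.ext (Matrix.add_mul g.1 g'.1 f.1)

instance lin : Linear k (Ob k D) where
  homModule X Y := inferInstanceAs (Module k (HomS k D X.i Y.i))
  smul_comp _ _ _ r f g := Subtype.ext (Matrix.mul_smul g.1 r f.1)
  comp_smul _ _ _ f r g := Subtype.ext (Matrix.smul_mul r g.1 f.1)

theorem nzd (hD : ∀ i, DomLike (D.E i)) (X Y Z : Ob k D) (f : X ⟶ Y) (g : Y ⟶ Z) (hf : f ≠ 0)
    (hg : g ≠ 0) : f ≫ g ≠ 0 := by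
  intro h
  have hf' : ∃ j, (fun i => f.1 i j) ≠ 0 := by
    by_contra hc
    push Not at hc
    exact hf (Subtype.ext (by ext i j; exact congrFun (hc j) i))
  have hg' : ∃ i, g.1 i ≠ 0 := by
    by_contra hc
    push Not at hc
    exact hg (Subtype.ext (by ext i j; exact congrFun (hc i) j))
  obtain ⟨j, hj⟩ := hf'
  obtain ⟨i, hi⟩ := hg'
  have h0 : g.1 * f.1 = 0 := congrArg Subtype.val h
  have h1 : g.1 i ⬝ᵥ (fun a => f.1 a j) = 0 := congrFun (congrFun h0 i) j
  have h3 : g.1 i ᵥ* D.E Y.i = g.1 i := by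
    ext a
    exact congrFun (congrFun g.2.2 i) a
  have h4 : D.E Y.i *ᵥ (fun a => f.1 a j) = fun a => f.1 a j := by
    ext a
    exact congrFun (congrFun f.2.1 a) j
  rcases (hD Y.i).2.2 (g.1 i) (fun a => f.1 a j) h3 h4 h1 with h2 | h2
  · exact hi h2
  · exact hj h2

theorem idne (hD : ∀ i, DomLike (D.E i)) (X : Ob k D) : 𝟙 X ≠ 0 := by
  intro h
  exact (hD X.i).2.1 (congrArg Subtype.val h)

end

@[reducible] def szD (m n : ℕ) : Fin 3 → ℕ
  | 0 => 1
  | 1 => m
  | 2 => n

@[reducible] def ED {R : Type} [Ring R] {m n : ℕ} (p : Matrix (Fin m) (Fin m) R)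
    (q : Matrix (Fin n) (Fin n) R) : ∀ i, Matrix (Fin (szD m n i)) (Fin (szD m n i)) R
  | 0 => (1 : Matrix (Fin 1) (Fin 1) R)
  | 1 => p
  | 2 => q

theorem hED {R : Type} [Ring R] [IsDomain R] {m n : ℕ} (p : Matrix (Fin m) (Fin m) R)
    (q : Matrix (Fin n) (Fin n) R) (hp : DomLike p) (hq : DomLike q) : ∀ i, DomLike (ED p q i)
  | 0 => by
      show DomLike (1 : Matrix (Fin 1) (Fin 1) R)
      refine ⟨by simp, one_ne_zero, ?_⟩
      intro ρ v _ _ h
      simp only [dotProduct, Fin.sum_univ_one, Fin.isValue] at h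
      rcases mul_eq_zero.1 h with h | h
      · left; ext i; fin_cases i; exact h
      · right; ext i; fin_cases i; exact h
  | 1 => hp
  | 2 => hq

/-- the category data -/
@[reducible] def DD {R : Type} [Ring R] [IsDomain R] {m n : ℕ} (p : Matrix (Fin m) (Fin m) R)
    (q : Matrix (Fin n) (Fin n) R) (hp : DomLike p) (hq : DomLike q) : Dat R :=
  ⟨Fin 3, szD m n, ED p q, fun i => (hED p q hp hq i).1⟩

section

variable {k : Type} [Field k] {R : Type} [Ring R] [Algebra k R] [IsDomain R] {m n : ℕ}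
  {p : Matrix (Fin m) (Fin m) R} {q : Matrix (Fin n) (Fin n) R} (hp : DomLike p) (hq : DomLike q)

/-- object number `x` -/
@[reducible] def ob (k : Type) {R : Type} [Ring R] [IsDomain R] {m n : ℕ}
    {p : Matrix (Fin m) (Fin m) R} {q : Matrix (Fin n) (Fin n) R}
    (hp : DomLike p) (hq : DomLike q) (x : Fin 3) : Ob k (DD p q hp hq) := ⟨x⟩

/-- scalars -/
def th (c : R) : ob k hp hq 0 ⟶ ob k hp hq 0 :=
  ⟨(fun _ _ => c : Matrix (Fin 1) (Fin 1) R), Matrix.one_mul _, Matrix.mul_one _⟩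

/-- rows -/
def al (x : Fin 3) (i : Fin (szD m n x)) : ob k hp hq x ⟶ ob k hp hq 0 :=
  ⟨(fun _ j => ED p q x i j : Matrix (Fin 1) (Fin (szD m n x)) R), Matrix.one_mul _, by
    ext a b
    exact congrFun (congrFun (hED p q hp hq x).1 i) b⟩

/-- columns -/
def be (x : Fin 3) (j : Fin (szD m n x)) : ob k hp hq 0 ⟶ ob k hp hq x :=
  ⟨(fun i _ => ED p q x i j : Matrix (Fin (szD m n x)) (Fin 1) R), by
    ext a b
    exact congrFun (congrFun (hED p q hp hq x).1 a) j, Matrix.mul_one _⟩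

theorem be_al (x : Fin 3) (i j : Fin (szD m n x)) :
    be (k := k) hp hq x j ≫ al hp hq x i = th hp hq (ED p q x i j) := by
  refine Subtype.ext ?_
  ext a b
  exact congrFun (congrFun (hED p q hp hq x).1 i) j

theorem th_mul (c d : R) : th (k := k) hp hq d ≫ th hp hq c = th hp hq (c * d) := by
  refine Subtype.ext ?_
  ext a b
  show ∑ u : Fin 1, c * d = c * d
  simp

theorem sum_al (x : Fin 3) : ∑ i, al (k := k) hp hq x i ≫ be hp hq x i = 𝟙 (ob k hp hq x) := by
  refine Subtype.ext ?_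
  have h1 : (∑ i, al (k := k) hp hq x i ≫ be hp hq x i).1
      = ∑ i, (be (k := k) hp hq x i).1 * (al (k := k) hp hq x i).1 :=
    AddSubmonoidClass.coe_finsetSum _ _
  rw [h1]
  ext a b
  rw [Matrix.sum_apply]
  show ∑ i, ∑ u : Fin 1, ED p q x a i * ED p q x i b = ED p q x a b
  simp only [Fin.sum_univ_one]
  exact congrFun (congrFun (hED p q hp hq x).1 a) b

end

theorem taskT1 (k : Type) [Field k] : TaskT1 k := by
  intro hT0 R _ _ _ m n p q hp hq
  obtain ⟨S, iR, iA, iD, F, hinj, hid, hcomp⟩ := hT0 (Ob k (DD p q hp hq))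
    (nzd _ (hED p q hp hq)) (idne _ (hED p q hp hq)) ⟨ob k hp hq 0⟩
  let φ : R →ₐ[k] S := AlgHom.ofLinearMap
    { toFun := fun c => F (ob k hp hq 0) (ob k hp hq 0) (th hp hq c)
      map_add' := fun c d => by
        rw [← map_add]; rfl
      map_smul' := fun c d => by
        rw [RingHom.id_apply, ← map_smul]; rfl }
    (by
      show F _ _ (th hp hq 1) = 1
      rw [← hid (ob k hp hq 0)]
      congr 1
      refine Subtype.ext ?_
      ext a b
      fin_cases a; fin_cases b; rfl)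
    (fun c d => by
      show F _ _ (th hp hq (c * d)) = F _ _ (th hp hq c) * F _ _ (th hp hq d)
      rw [← th_mul, hcomp])
  have hφ : ∀ c, φ c = F (ob k hp hq 0) (ob k hp hq 0) (th hp hq c) := fun _ => rfl
  have hab : ∀ (x : Fin 3) (i j : Fin (szD m n x)),
      F _ _ (al (k := k) hp hq x i) * F _ _ (be (k := k) hp hq x j) = φ (ED p q x i j) := by
    intro x i j
    rw [hφ, ← be_al, hcomp]
  have hba : ∀ x : Fin 3,
      ∑ i, F _ _ (be (k := k) hp hq x i) * F _ _ (al (k := k) hp hq x i) = 1 := by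
    intro x
    rw [← hid (ob k hp hq x), ← sum_al, map_sum]
    exact Finset.sum_congr rfl fun i _ => (hcomp _ _ _ _ _).symm
  refine ⟨S, iR, iA, iD, φ, Matrix.of fun i _ => F _ _ (al (k := k) hp hq 1 i),
    Matrix.of fun _ j => F _ _ (be (k := k) hp hq 1 j),
    Matrix.of fun i _ => F _ _ (al (k := k) hp hq 2 i),
    Matrix.of fun _ j => F _ _ (be (k := k) hp hq 2 j), ?_, ?_, ?_, ?_, ?_⟩
  · intro c d h
    have h1 := congrArg Subtype.val (hinj _ _ h)
    exact congrFun (congrFun h1 (0 : Fin 1)) (0 : Fin 1)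
  · ext i j
    rw [Matrix.mul_apply, Fin.sum_univ_one, Matrix.map_apply]
    exact hab 1 i j
  · ext i j
    rw [Matrix.mul_apply, Subsingleton.elim i j, Matrix.one_apply_eq]
    exact hba 1
  · ext i j
    rw [Matrix.mul_apply, Fin.sum_univ_one, Matrix.map_apply]
    exact hab 2 i j
  · ext i j
    rw [Matrix.mul_apply, Subsingleton.elim i j, Matrix.one_apply_eq]
    exact hba 2

end Pool.Agent.H975.NORE
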